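import Pool.Agent.H27.L1.H34.GZ.Targets1

/-!
# The skewness against the Haar measure (module VLM)
-/

set_option autoImplicit false

open MeasureTheory Pool.Agent.H27.L1.H34.GM Pool.Agent.H27.L1.H34.GZ

namespace Pool.Agent.H27.L1.H90.GZ

/-- the Siegel set -/
def Om (m : ℕ) : Set (V m) := {z : V m | ∃ n k : Mat m, Sgl (mt z) n (gs (mt z)) k}

/-- the range of the lengths -/
def R0 (m : ℕ) : Set (Fin m → ℝ) := {a : Fin m → ℝ | (∀ i, 0 < a i) ∧ 1 ≤ ∏ i, a i ∧
  ∏ i, a i < Real.exp m ∧ ∀ i j, i ≤ j → a i ≤ 2 ^ m * a j}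

/-- the gaps are at most `Y` -/
def Gp (m : ℕ) (Y : ℝ) : Set (Fin m → ℝ) :=
  {a : Fin m → ℝ | ∀ i j : Fin m, (i : ℕ) + 1 = j → a j ≤ Y * a i}

/-- the action of an integer matrix -/
noncomputable def ac {m : ℕ} (γ : ZM m) (z : V m) : V m := fun i j => (cR γ * mt z) i j

lemma mt_ac {m : ℕ} (γ : ZM m) (z : V m) : mt (ac γ z) = cR γ * mt z := rfl

lemma cR_mul {m : ℕ} (γ δ : ZM m) : cR (γ * δ) = cR γ * cR δ := by
  unfold cR
  exact Matrix.map_mul (f := Int.castRingHom ℝ)

lemma cR_one {m : ℕ} : cR (1 : ZM m) = 1 := by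
  unfold cR
  ext i j
  by_cases h : i = j
  · subst h; simp
  · simp [Matrix.one_apply_ne h]

lemma ac_one {m : ℕ} (z : V m) : ac 1 z = z := by
  funext i j
  unfold ac
  rw [cR_one, one_mul]
  rfl

lemma ac_ac {m : ℕ} (γ δ : ZM m) (z : V m) : ac γ (ac δ z) = ac (γ * δ) z := by
  funext i j
  change (cR γ * mt (ac δ z)) i j = (cR (γ * δ) * mt z) i j
  rw [mt_ac, cR_mul, Matrix.mul_assoc]

lemma measurable_ac {m : ℕ} (γ : ZM m) : Measurable (ac γ : V m → V m) := by
  refine measurable_pi_lambda _ fun i => measurable_pi_lambda _ fun j => ?_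
  unfold ac
  simp only [Matrix.mul_apply, Pool.Agent.H27.L1.H34.GM.mt, Matrix.of_apply]
  fun_prop

lemma measurableSet_R0 (m : ℕ) : MeasurableSet (R0 m) := by
  have h1 : R0 m = (⋂ i, {a : Fin m → ℝ | 0 < a i}) ∩ ({a : Fin m → ℝ | 1 ≤ ∏ i, a i} ∩
      ({a : Fin m → ℝ | ∏ i, a i < Real.exp m} ∩
        ⋂ i, ⋂ j, {a : Fin m → ℝ | i ≤ j → a i ≤ 2 ^ m * a j})) := by
    ext a
    simp [R0]
  rw [h1]
  refine (MeasurableSet.iInter fun i => measurableSet_lt measurable_const
    (measurable_pi_apply i)).inter ((measurableSet_le measurable_const (by fun_prop)).inter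
    ((measurableSet_lt (by fun_prop) measurable_const).inter
      (MeasurableSet.iInter fun i => MeasurableSet.iInter fun j => ?_)))
  by_cases h : i ≤ j
  · simp only [h, true_imp_iff]
    exact measurableSet_le (measurable_pi_apply i) (by fun_prop)
  · simp only [h, false_imp_iff]
    exact MeasurableSet.univ

lemma measurableSet_Gp (m : ℕ) (Y : ℝ) : MeasurableSet (Gp m Y) := by
  have h1 : Gp m Y = ⋂ i : Fin m, ⋂ j : Fin m, {a : Fin m → ℝ | (i : ℕ) + 1 = j → a j ≤ Y * a i} := by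
    ext a
    simp [Gp]
  rw [h1]
  refine MeasurableSet.iInter fun i => MeasurableSet.iInter fun j => ?_
  by_cases h : (i : ℕ) + 1 = j
  · simp only [h, true_imp_iff]
    exact measurableSet_le (measurable_pi_apply j) (by fun_prop)
  · simp only [h, false_imp_iff]
    exact MeasurableSet.univ

lemma measurable_skw (m : ℕ) : Measurable (skw : (Fin m → ℝ) → ℝ) := by
  unfold skw
  refine Finset.measurable_prod _ fun i _ => Finset.measurable_prod _ fun j _ => ?_
  by_cases h : i < j
  · simp only [h, if_true]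
    exact (measurable_pi_apply j).div (measurable_pi_apply i)
  · simp only [h, if_false]
    exact measurable_const

/-- the shell in terms of the determinant -/
lemma shell_det {m : ℕ} (hm : 1 ≤ m) {z : V m} (hz : z ∈ Shell m) :
    1 ≤ |(mt z).det| ∧ |(mt z).det| < Real.exp m := by
  obtain ⟨h1, h2⟩ := hz
  have hm0 : (m : ℝ) ≠ 0 := by
    have : 0 < m := hm
    positivity
  have h3 : |(mt z).det| = aN (mt z) ^ m := by
    unfold aN
    rw [← Real.rpow_natCast, ← Real.rpow_mul (abs_nonneg _), one_div, inv_mul_cancel₀ hm0,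
      Real.rpow_one]
  rw [h3]
  constructor
  · exact one_le_pow₀ h1
  · have h4 : Real.exp (m : ℝ) = Real.exp 1 ^ m := by
      rw [← Real.exp_nat_mul, mul_one]
    rw [h4]
    exact pow_lt_pow_left₀ h2 (by linarith) (by omega)

/-- the common estimate -/
lemma main (hRED : T_RED) (hGSU : T_GSU) (hVOL : T_VOL) (hCVZ : T_CVZ) (hCNT : T_CNT) (m : ℕ)
    (hm : 1 ≤ m) : ∃ C : ℝ, 0 < C ∧ ∀ D : Set (V m), DomZ m D → ∀ (f : V m → ENNReal)
      (F : (Fin m → ℝ) → ENNReal), Measurable f →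
      (∀ γ : ZM m, IsUnit γ → ∀ z : V m, f (ac γ z) = f z) → Measurable F →
      (∀ z ∈ Om m, z ∈ Shell m → f z ≤ F (gs (mt z))) →
      ∫⁻ z in D, f z ∂(Pool.Agent.H27.L1.H34.GM.hm m) ≤ ENNReal.ofReal C * ∫⁻ a in R0 m,
        F a * ENNReal.ofReal (∏ j : Fin m, a j ^ (2 * (m - 1 - (j : ℕ)))) := by
  obtain ⟨C, hC, hV⟩ := hVOL m hm
  refine ⟨C, hC, ?_⟩
  intro D hD f F hf hinv hF hfF
  have hOm : MeasurableSet (Om m) := hGSU.2.2 m
  have hSh : MeasurableSet (Shell m) := by
    unfold Shell aN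
    have h1 : Measurable fun z : V m => |(mt z).det| ^ (1 / (m : ℝ)) := by
      have h2 : Continuous fun z : V m => (mt z).det := by
        refine Continuous.matrix_det ?_
        exact continuous_id
      exact (h2.measurable.norm).pow_const _
    exact (measurableSet_le measurable_const h1).inter (measurableSet_lt h1 measurable_const)
  have hcov : ∀ z ∈ Shell m, ∃ γ : ZM m, IsUnit γ ∧
      ((fun i j => (cR γ * mt z) i j) : V m) ∈ Om m := by
    intro z hz
    have h1 := (shell_det hm hz).1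
    have h2 : (mt z).det ≠ 0 := by
      intro h
      rw [h, abs_zero] at h1
      linarith
    obtain ⟨γ, hγ, n, a, k, hS⟩ := hRED m (mt z) h2
    refine ⟨γ, hγ, n, k, ?_⟩
    have h3 := hGSU.1 m _ n a k hS
    change Sgl (cR γ * mt z) n (gs (cR γ * mt z)) k
    rw [← h3]
    exact hS
  have h1 := hCVZ m hm D hD (Om m) hOm hcov f hf (fun γ hγ z _ => hinv γ hγ z)
  refine h1.trans ?_
  have hG : Measurable (fun a : Fin m → ℝ => (R0 m).indicator F a) :=
    hF.indicator (measurableSet_R0 m)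
  have h2 : ∫⁻ z in Om m ∩ Shell m, f z ∂(Pool.Agent.H27.L1.H34.GM.hm m) ≤
      ∫⁻ z in Om m, (R0 m).indicator F (gs (mt z)) := by
    unfold Pool.Agent.H27.L1.H34.GM.hm
    have hdm : Measurable fun z : V m => ENNReal.ofReal ((|(mt z).det| ^ m)⁻¹) := by
      have h2 : Continuous fun z : V m => (mt z).det := by
        refine Continuous.matrix_det ?_
        exact continuous_id
      exact ((h2.measurable.norm.pow_const _).inv).ennreal_ofReal
    rw [setLIntegral_withDensity_eq_setLIntegral_mul _ hdm hf (hOm.inter hSh)]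
    refine le_trans ?_ (lintegral_mono_set (Set.inter_subset_left : Om m ∩ Shell m ⊆ Om m))
    refine setLIntegral_mono' (hOm.inter hSh) fun z hz => ?_
    obtain ⟨n, k, hS⟩ := hz.1
    have hd := shell_det hm hz.2
    have hdet := (hCNT m (mt z) n _ k hS).2.2.2
    have hR : gs (mt z) ∈ R0 m := by
      refine ⟨hS.pos, ?_, ?_, hS.ord⟩
      · rw [← hdet]; exact hd.1
      · rw [← hdet]; exact hd.2
    rw [Set.indicator_of_mem hR]
    have h3 : ENNReal.ofReal ((|(mt z).det| ^ m)⁻¹) ≤ 1 := by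
      rw [ENNReal.ofReal_le_one]
      exact inv_le_one_of_one_le₀ (one_le_pow₀ hd.1)
    calc ENNReal.ofReal ((|(mt z).det| ^ m)⁻¹) * f z ≤ 1 * f z := by gcongr
      _ = f z := one_mul _
      _ ≤ F (gs (mt z)) := hfF z hz.1 hz.2
  refine h2.trans ((hV _ hG).trans ?_)
  gcongr ENNReal.ofReal C * ?_
  have hpos : MeasurableSet {a : Fin m → ℝ | ∀ i, 0 < a i} := by
    have h1 : {a : Fin m → ℝ | ∀ i, 0 < a i} = ⋂ i, {a : Fin m → ℝ | 0 < a i} := by
      ext a; simp
    rw [h1]
    exact MeasurableSet.iInter fun i => measurableSet_lt measurable_const (measurable_pi_apply i)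
  rw [← lintegral_indicator hpos, ← lintegral_indicator (measurableSet_R0 m)]
  refine lintegral_mono fun a => ?_
  by_cases ha : a ∈ R0 m
  · have ha' : a ∈ {a : Fin m → ℝ | ∀ i, 0 < a i} := ha.1
    rw [Set.indicator_of_mem ha', Set.indicator_of_mem ha, Set.indicator_of_mem ha]
  · rw [Set.indicator_of_notMem ha (f := fun a : Fin m → ℝ => F a *
      ENNReal.ofReal (∏ j : Fin m, a j ^ (2 * (m - 1 - (j : ℕ)))))]
    by_cases ha' : a ∈ {a : Fin m → ℝ | ∀ i, 0 < a i}
    · rw [Set.indicator_of_mem ha', Set.indicator_of_notMem ha, zero_mul]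
    · rw [Set.indicator_of_notMem ha']

open Classical in
/-- the skewness in terms of the Gram-Schmidt lengths -/
lemma tht_eq (hGSU : T_GSU) {m : ℕ} (z : V m) : Tht (mt z) = ⨅ γ : ZM m, ⨅ (_ : IsUnit γ),
    (Om m).piecewise (fun w : V m => ENNReal.ofReal (skw (gs (mt w)))) (fun _ => ⊤) (ac γ z) := by
  unfold Tht
  refine iInf_congr fun γ => iInf_congr fun _ => ?_
  by_cases h : ac γ z ∈ Om m
  · rw [Set.piecewise_eq_of_mem _ _ _ h]
    obtain ⟨n, k, hS⟩ := h
    apply le_antisymm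
    · exact iInf_le_of_le n (iInf_le_of_le _ (iInf_le_of_le k (iInf_le_of_le hS le_rfl)))
    · refine le_iInf fun n' => le_iInf fun a' => le_iInf fun k' => le_iInf fun hS' => ?_
      have h1 := hGSU.1 m _ n' a' k' hS'
      rw [h1]
      exact le_rfl
  · rw [Set.piecewise_eq_of_notMem _ _ _ h]
    apply le_antisymm le_top
    refine le_iInf fun n' => le_iInf fun a' => le_iInf fun k' => le_iInf fun hS' => ?_
    exfalso
    apply h
    have h1 := hGSU.1 m _ n' a' k' hS'
    rw [h1] at hS'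
    exact ⟨n', k', hS'⟩

instance (m : ℕ) : Countable (ZM m) := inferInstanceAs (Countable (Fin m → Fin m → ℤ))

lemma measurable_tht (hGSU : T_GSU) (m : ℕ) : Measurable fun z : V m => Tht (mt z) := by
  classical
  have h1 : (fun z : V m => Tht (mt z)) = fun z => ⨅ γ : ZM m, ⨅ (_ : IsUnit γ),
      (Om m).piecewise (fun w : V m => ENNReal.ofReal (skw (gs (mt w)))) (fun _ => ⊤)
        (ac γ z) := by
    funext z
    exact tht_eq hGSU z
  rw [h1]
  refine Measurable.iInf fun γ => Measurable.iInf fun _ => ?_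
  have h2 : Measurable ((Om m).piecewise (fun w : V m => ENNReal.ofReal (skw (gs (mt w))))
      (fun _ => ⊤)) := by
    refine Measurable.piecewise (hGSU.2.2 m) ?_ measurable_const
    exact ((measurable_skw m).comp (hGSU.2.1 m)).ennreal_ofReal
  exact h2.comp (measurable_ac γ)

lemma tht_inv {m : ℕ} (γ : ZM m) (hγ : IsUnit γ) (z : V m) :
    Tht (mt (ac γ z)) = Tht (mt z) := by
  have key : ∀ (δ : ZM m) (_ : IsUnit δ) (w : V m), Tht (mt w) ≤ Tht (mt (ac δ w)) := by
    intro δ hδ w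
    unfold Tht
    refine le_iInf fun γ' => le_iInf fun hγ' => le_iInf fun n' => le_iInf fun a' =>
      le_iInf fun k' => le_iInf fun hS' => ?_
    rw [mt_ac, ← Matrix.mul_assoc, ← cR_mul] at hS'
    exact iInf_le_of_le (γ' * δ) (iInf_le_of_le (hγ'.mul hδ) (iInf_le_of_le n'
      (iInf_le_of_le a' (iInf_le_of_le k' (iInf_le_of_le hS' le_rfl)))))
  apply le_antisymm
  · obtain ⟨u, rfl⟩ := hγ
    have h1 := key (↑u⁻¹ : ZM m) (Units.isUnit _) (ac (↑u : ZM m) z)
    rwa [ac_ac, Units.inv_mul, ac_one] at h1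
  · exact key γ hγ z

/-- the part where all gaps are at most `Y` -/
def GY (m : ℕ) (Y : ℝ) : Set (V m) := {z | ∀ γ : ZM m, IsUnit γ → ∀ (n : Mat m)
  (a : Fin m → ℝ) (k : Mat m), Sgl (cR γ * mt z) n a k →
    ∀ i j : Fin m, (i : ℕ) + 1 = j → a j ≤ Y * a i}

lemma measurableSet_GY (hGSU : T_GSU) (m : ℕ) (Y : ℝ) : MeasurableSet (GY m Y) := by
  have h1 : GY m Y = ⋂ γ : ZM m, ⋂ (_ : IsUnit γ),
      (ac γ) ⁻¹' ((Om m)ᶜ ∪ (fun z : V m => gs (mt z)) ⁻¹' (Gp m Y)) := by
    ext z
    simp only [Set.mem_iInter]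
    constructor
    · intro h γ hγ
      by_cases h2 : ac γ z ∈ Om m
      · right
        obtain ⟨n, k, hS⟩ := h2
        exact h γ hγ n _ k hS
      · left
        exact h2
    · intro h γ hγ n a k hS i j hij
      have h3 := hGSU.1 m _ n a k hS
      rcases h γ hγ with h2 | h2
      · exfalso
        apply h2
        rw [h3] at hS
        exact ⟨n, k, hS⟩
      · rw [h3]
        exact h2 i j hij
  rw [h1]
  refine MeasurableSet.iInter fun γ => MeasurableSet.iInter fun _ => measurable_ac γ ?_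
  exact (hGSU.2.2 m).compl.union (hGSU.2.1 m (measurableSet_Gp m Y))

lemma gy_inv {m : ℕ} (Y : ℝ) (γ : ZM m) (hγ : IsUnit γ) (z : V m) :
    ac γ z ∈ GY m Y ↔ z ∈ GY m Y := by
  have key : ∀ (δ : ZM m) (_ : IsUnit δ) (w : V m), w ∈ GY m Y → ac δ w ∈ GY m Y := by
    intro δ hδ w hw γ' hγ' n a k hS
    rw [mt_ac, ← Matrix.mul_assoc, ← cR_mul] at hS
    exact hw (γ' * δ) (hγ'.mul hδ) n a k hS
  constructor
  · intro h
    obtain ⟨u, rfl⟩ := hγ
    have h1 := key (↑u⁻¹ : ZM m) (Units.isUnit _) _ h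
    rwa [ac_ac, Units.inv_mul, ac_one] at h1
  · exact key γ hγ z

theorem pf_VLM : T_RED → T_GSU → T_VOL → T_CVZ → T_VLA → T_CNT → T_VLM := by
  intro hRED hGSU hVOL hCVZ hVLA hCNT m hm
  classical
  obtain ⟨C, hC, hmain⟩ := main hRED hGSU hVOL hCVZ hCNT m hm
  obtain ⟨C', hC', hA, hB⟩ := hVLA m hm
  refine ⟨C * C', m, by positivity, ?_⟩
  intro D hD
  constructor
  · have h1 := hmain D hD (fun _ => 1) (fun _ => 1) measurable_const (fun _ _ _ => rfl)
      measurable_const (fun _ _ _ => le_rfl)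
    rw [setLIntegral_one] at h1
    refine h1.trans ?_
    rw [ENNReal.ofReal_mul hC.le]
    gcongr
    simp only [one_mul]
    exact hB
  · intro Y hY
    have hGY := measurableSet_GY hGSU m Y
    have h1 := hmain D hD ((GY m Y).indicator fun z => Tht (mt z))
      ((Gp m Y).indicator fun a => ENNReal.ofReal (skw a))
      ((measurable_tht hGSU m).indicator hGY) ?_
      ((measurable_skw m).ennreal_ofReal.indicator (measurableSet_Gp m Y)) ?_
    · have h2 : ∫⁻ z in DY D Y, Tht (mt z) ∂(Pool.Agent.H27.L1.H34.GM.hm m) =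
          ∫⁻ z in D, (GY m Y).indicator (fun z => Tht (mt z)) z ∂(Pool.Agent.H27.L1.H34.GM.hm m) := by
        rw [setLIntegral_indicator hGY, Set.inter_comm]
        rfl
      rw [h2]
      refine h1.trans ?_
      rw [mul_assoc, ENNReal.ofReal_mul hC.le]
      gcongr
      refine le_trans (le_of_eq ?_) (hA Y hY)
      have h3 : {a : Fin m → ℝ | (∀ i, 0 < a i) ∧ 1 ≤ ∏ i, a i ∧
          ∏ i, a i < Real.exp m ∧ (∀ i j, i ≤ j → a i ≤ 2 ^ m * a j) ∧
          ∀ i j : Fin m, (i : ℕ) + 1 = j → a j ≤ Y * a i} = Gp m Y ∩ R0 m := by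
        ext a
        simp only [Gp, R0, Set.mem_inter_iff, Set.mem_ofPred_eq]
        tauto
      rw [h3, ← setLIntegral_indicator (measurableSet_Gp m Y)]
      refine setLIntegral_congr_fun (measurableSet_R0 m) fun a ha => ?_
      by_cases h : a ∈ Gp m Y
      · rw [Set.indicator_of_mem h, Set.indicator_of_mem h, ← ENNReal.ofReal_mul]
        unfold skw
        refine Finset.prod_nonneg fun i _ => Finset.prod_nonneg fun j _ => ?_
        have := ha.1
        split_ifs
        · exact div_nonneg (this j).le (this i).le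
        · exact zero_le_one
      · rw [Set.indicator_of_notMem h, Set.indicator_of_notMem h, zero_mul]
    · intro γ hγ z
      by_cases h : z ∈ GY m Y
      · rw [Set.indicator_of_mem h, Set.indicator_of_mem ((gy_inv Y γ hγ z).2 h),
          tht_inv γ hγ z]
      · rw [Set.indicator_of_notMem h,
          Set.indicator_of_notMem (fun h' => h ((gy_inv Y γ hγ z).1 h'))]
    · intro z hz _
      obtain ⟨n, k, hS⟩ := hz
      have hS1 : Sgl (cR (1 : ZM m) * mt z) n (gs (mt z)) k := by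
        rw [cR_one, one_mul]
        exact hS
      by_cases h : z ∈ GY m Y
      · rw [Set.indicator_of_mem h]
        have h2 : gs (mt z) ∈ Gp m Y := h 1 isUnit_one n _ k hS1
        rw [Set.indicator_of_mem h2]
        unfold Tht
        exact iInf_le_of_le 1 (iInf_le_of_le isUnit_one (iInf_le_of_le n
          (iInf_le_of_le _ (iInf_le_of_le k (iInf_le_of_le hS1 le_rfl)))))
      · rw [Set.indicator_of_notMem h]
        exact bot_le

end Pool.Agent.H27.L1.H90.GZ
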