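import Pool.Agent.H27.L1.H16.GZ.Targets4

/-!
# Unfolding of a sum over the non singular integer matrices (module UNL)
-/

set_option autoImplicit false

open MeasureTheory Pool.Agent.H27.L1.H34.GM Pool.Agent.H27.L1.H34.GZ

namespace Pool.Agent.H27.L1.H90.GZ

lemma cR_mul' {m : ℕ} (γ δ : ZM m) : cR (γ * δ) = cR γ * cR δ := by
  unfold cR
  exact Matrix.map_mul (f := Int.castRingHom ℝ)

lemma mat_cancel {m : ℕ} {s c c' : ZM m} (hs : s.det ≠ 0) (h : c * s = c' * s) : c = c' := by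
  have h1 : c * s * s.adjugate = c' * s * s.adjugate := by rw [h]
  rw [Matrix.mul_assoc, Matrix.mul_assoc, Matrix.mul_adjugate, Matrix.mul_smul, Matrix.mul_smul,
    Matrix.mul_one, Matrix.mul_one] at h1
  ext i j
  have h2 := congrFun (congrFun h1 i) j
  simp only [Matrix.smul_apply, smul_eq_mul] at h2
  exact mul_left_cancel₀ hs h2

/-- the inverse on the integral units -/
noncomputable def invU (m : ℕ) : {γ : ZM m // IsUnit γ} ≃ {γ : ZM m // IsUnit γ} where
  toFun c := ⟨((c.2.unit⁻¹ : (ZM m)ˣ) : ZM m), Units.isUnit _⟩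
  invFun c := ⟨((c.2.unit⁻¹ : (ZM m)ˣ) : ZM m), Units.isUnit _⟩
  left_inv c := by
    apply Subtype.ext
    change (((Units.isUnit (c.2.unit⁻¹)).unit⁻¹ : (ZM m)ˣ) : ZM m) = c.1
    rw [IsUnit.unit_of_val_units, inv_inv, IsUnit.unit_spec]
  right_inv c := by
    apply Subtype.ext
    change (((Units.isUnit (c.2.unit⁻¹)).unit⁻¹ : (ZM m)ˣ) : ZM m) = c.1
    rw [IsUnit.unit_of_val_units, inv_inv, IsUnit.unit_spec]

lemma mul_invU {m : ℕ} (c : {γ : ZM m // IsUnit γ}) : c.1 * (invU m c).1 = 1 := by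
  change c.1 * ((c.2.unit⁻¹ : (ZM m)ˣ) : ZM m) = 1
  exact IsUnit.mul_val_inv c.2

open Classical in
theorem pf_UNL : T_UNZ → T_IDX → T_UNL := by
  intro hUNZ hIDX m D hm hD sel hsel G hG hinv
  obtain ⟨i1, -, -, i4, -⟩ := hIDX m
  have hcZ : Countable (ZM m) := inferInstanceAs (Countable (Fin m → Fin m → ℤ))
  have hcL : Countable {L : AddSubgroup (Fin m → ℤ) // L.index ≠ 0} := by
    refine Function.Injective.countable (f := fun L : {L : AddSubgroup (Fin m → ℤ) //
      L.index ≠ 0} => sel L.1) ?_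
    intro L L' h
    apply Subtype.ext
    rw [← (hsel L.1 L.2).2, ← (hsel L'.1 L'.2).2]
    have h' : sel L.1 = sel L'.1 := h
    rw [h']
  -- the bijection
  let Φ : {L : AddSubgroup (Fin m → ℤ) // L.index ≠ 0} × {c : ZM m // IsUnit c} →
      {γ : ZM m // γ.det ≠ 0} := fun p => ⟨p.2.1 * sel p.1.1, by
        rw [Matrix.det_mul]
        refine mul_ne_zero ?_ (hsel p.1.1 p.1.2).1
        have h1 := (Matrix.isUnit_iff_isUnit_det p.2.1).1 p.2.2
        exact h1.ne_zero⟩
  have hΦ : Function.Bijective Φ := by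
    constructor
    · rintro ⟨L, c⟩ ⟨L', c'⟩ h
      have h1 : c.1 * sel L.1 = c'.1 * sel L'.1 := congrArg Subtype.val h
      have h2 : ∀ (L : {L : AddSubgroup (Fin m → ℤ) // L.index ≠ 0}) (c : {c : ZM m // IsUnit c}),
          AddSubgroup.closure (Set.range (c.1 * sel L.1)) = L.1 := by
        intro L c
        rw [← (i4 (sel L.1) (c.1 * sel L.1) (hsel L.1 L.2).1).2 ⟨c.1, c.2, rfl⟩]
        exact (hsel L.1 L.2).2
      have h3 : L = L' := by
        apply Subtype.ext
        rw [← h2 L c, ← h2 L' c', h1]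
      subst h3
      have h4 : c = c' := Subtype.ext (mat_cancel (hsel L.1 L.2).1 h1)
      rw [h4]
    · intro γ
      have h1 : (AddSubgroup.closure (Set.range γ.1)).index ≠ 0 := by
        rw [i1 γ.1 γ.2]
        exact Int.natAbs_ne_zero.2 γ.2
      obtain ⟨u, hu, hu'⟩ := (i4 (sel (AddSubgroup.closure (Set.range γ.1))) γ.1
        (hsel _ h1).1).1 (hsel _ h1).2
      exact ⟨(⟨_, h1⟩, ⟨u, hu⟩), Subtype.ext hu'.symm⟩
  have hact : ∀ γ : ZM m, Measurable fun z : V m => ((fun i j => (cR γ * mt z) i j) : V m) := by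
    intro γ
    refine measurable_pi_lambda _ fun i => measurable_pi_lambda _ fun j => ?_
    simp only [Matrix.mul_apply, Pool.Agent.H27.L1.H34.GM.mt, Matrix.of_apply]
    fun_prop
  have hdet : ∀ z ∈ D, (mt z).det ≠ 0 := by
    intro z hz h
    have h1 := (hD.shell z hz).1
    unfold aN at h1
    rw [h, abs_zero, Real.zero_rpow (by positivity)] at h1
    linarith
  have hpt : ∀ z ∈ D, (∑' γ : ZM m, (if γ.det ≠ 0 then G γ z else 0)) =
      ∑' L : {L : AddSubgroup (Fin m → ℤ) // L.index ≠ 0}, ∑' γ : {γ : ZM m // IsUnit γ},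
        G (sel L.1) (fun i j => (cR γ.1 * mt z) i j) := by
    intro z hz
    have h1 : (∑' γ : ZM m, (if γ.det ≠ 0 then G γ z else 0)) =
        ∑' γ : {γ : ZM m // γ.det ≠ 0}, G γ.1 z := by
      have h2 := tsum_subtype {γ : ZM m | γ.det ≠ 0} (fun γ => G γ z)
      refine Eq.trans ?_ h2.symm
      refine tsum_congr fun γ => ?_
      by_cases h : γ.det ≠ 0
      · rw [if_pos h, Set.indicator_of_mem (show γ ∈ {γ : ZM m | γ.det ≠ 0} from h)]
      · rw [if_neg h, Set.indicator_of_notMem (show γ ∉ {γ : ZM m | γ.det ≠ 0} from h)]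
    rw [h1, ← (Equiv.ofBijective Φ hΦ).tsum_eq, ENNReal.tsum_prod']
    refine tsum_congr fun L => ?_
    rw [← (invU m).tsum_eq]
    refine tsum_congr fun c => ?_
    change G ((invU m c).1 * sel L.1) z = _
    have h3 := hinv c.1 ((invU m c).1 * sel L.1) z c.2 (hdet z hz)
    rw [← Matrix.mul_assoc, mul_invU, Matrix.one_mul] at h3
    exact h3.symm
  rw [setLIntegral_congr_fun hD.meas hpt, lintegral_tsum]
  · have h4 := tsum_subtype {L : AddSubgroup (Fin m → ℤ) | L.index ≠ 0}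
      (fun L => ∫⁻ z in Shell m, G (sel L) z ∂(Pool.Agent.H27.L1.H34.GM.hm m))
    have h5 : (∑' L : AddSubgroup (Fin m → ℤ), if L.index ≠ 0 then
        ∫⁻ z in Shell m, G (sel L) z ∂(Pool.Agent.H27.L1.H34.GM.hm m) else 0) =
        ∑' L : {L : AddSubgroup (Fin m → ℤ) // L.index ≠ 0},
          ∫⁻ z in Shell m, G (sel L.1) z ∂(Pool.Agent.H27.L1.H34.GM.hm m) := by
      refine Eq.trans ?_ h4.symm
      refine tsum_congr fun L => ?_
      by_cases h : L.index ≠ 0
      · rw [if_pos h, Set.indicator_of_mem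
          (show L ∈ {L : AddSubgroup (Fin m → ℤ) | L.index ≠ 0} from h)]
      · rw [if_neg h, Set.indicator_of_notMem
          (show L ∉ {L : AddSubgroup (Fin m → ℤ) | L.index ≠ 0} from h)]
    rw [h5]
    refine tsum_congr fun L => ?_
    exact ((hUNZ m hm D hD).1 (G (sel L.1)) (hG _)).symm
  · intro L
    refine Measurable.aemeasurable ?_
    have hcU : Countable {γ : ZM m // IsUnit γ} := inferInstance
    exact Measurable.tsum fun γ => (hG _).comp (hact γ.1)

end Pool.Agent.H27.L1.H90.GZ
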